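import Pool.Agent.K1H12.SW.Stm

set_option autoImplicit false

/-! # Arbitrary change of lattice -/

namespace Pool.Agent.K1H37.HE

open Pool.Agent.K1H12.SW

section

variable {G : Type} [Group G]

/-- subrepresentation -/
def subR {L : Type} [AddCommGroup L] (ν : Representation ℤ G L) (T : Submodule ℤ L)
    (h : ∀ g, ∀ x ∈ T, ν g x ∈ T) : Representation ℤ G T where
  toFun g := (ν g).restrict (h g)
  map_one' := by ext x; simp
  map_mul' g g' := by ext x; simp

/-- quotient representation -/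
def quoR {L : Type} [AddCommGroup L] (ν : Representation ℤ G L) (T : Submodule ℤ L)
    (h : ∀ g, ∀ x ∈ T, ν g x ∈ T) : Representation ℤ G (L ⧸ T) where
  toFun g := T.mapQ T (ν g) (fun x hx => h g x hx)
  map_one' := by ext x; simp
  map_mul' g g' := by ext x; simp

theorem small_sub {L : Type} [AddCommGroup L] (ν : Representation ℤ G L) (T : Submodule ℤ L)
    (h : ∀ g, ∀ x ∈ T, ν g x ∈ T) (hs : Small ν) : Small (subR ν T h) := by
  classical
  obtain ⟨h1, h2⟩ := hs
  refine ⟨?_, ?_⟩
  · infer_instance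
  · refine (h2.image (fun f : L →ₗ[ℤ] L => if hf : ∀ x ∈ T, f x ∈ T then f.restrict hf
      else (0 : T →ₗ[ℤ] T))).subset ?_
    rintro _ ⟨g, rfl⟩
    refine ⟨ν g, ⟨g, rfl⟩, ?_⟩
    simp only
    rw [dif_pos (h g)]
    rfl

theorem small_quo {L : Type} [AddCommGroup L] (ν : Representation ℤ G L) (T : Submodule ℤ L)
    (h : ∀ g, ∀ x ∈ T, ν g x ∈ T) (hs : Small ν) : Small (quoR ν T h) := by
  classical
  obtain ⟨h1, h2⟩ := hs
  refine ⟨?_, ?_⟩
  · infer_instance
  · refine (h2.image (fun f : L →ₗ[ℤ] L => if hf : T ≤ T.comap f then T.mapQ T f hf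
      else (0 : (L ⧸ T) →ₗ[ℤ] (L ⧸ T)))).subset ?_
    rintro _ ⟨g, rfl⟩
    refine ⟨ν g, ⟨g, rfl⟩, ?_⟩
    simp only
    have hg : T ≤ T.comap (ν g) := fun x hx => h g x hx
    rw [dif_pos hg]
    rfl

theorem small_hom {M S : Type} [AddCommGroup M] [AddCommGroup S] (μ : Representation ℤ G M)
    (σ : Representation ℤ G S) (hM : Module.Free ℤ M) (h1 : Small μ) (h2 : Small σ) :
    Small (Representation.linHom μ σ) := by
  obtain ⟨a1, a2⟩ := h1
  obtain ⟨b1, b2⟩ := h2
  refine ⟨?_, ?_⟩
  · infer_instance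
  · refine (Set.Finite.image2 (fun (f : M →ₗ[ℤ] M) (k : S →ₗ[ℤ] S) =>
      ({ toFun := fun φ => k ∘ₗ φ ∘ₗ f
         map_add' := fun x y => by ext z; simp
         map_smul' := fun n x => by ext z; simp } : (M →ₗ[ℤ] S) →ₗ[ℤ] (M →ₗ[ℤ] S)))
      a2 b2).subset ?_
    rintro _ ⟨g, rfl⟩
    exact ⟨μ g⁻¹, ⟨g⁻¹, rfl⟩, σ g, ⟨g, rfl⟩, rfl⟩

theorem ses_hom {M S : Type} [AddCommGroup M] [AddCommGroup S] (μ : Representation ℤ G M)
    (σ : Representation ℤ G S) (hM : Module.Free ℤ M) (T : Submodule ℤ S)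
    (h : ∀ g, ∀ x ∈ T, σ g x ∈ T) :
    Ses (Representation.linHom μ (subR σ T h)) (Representation.linHom μ σ)
      (Representation.linHom μ (quoR σ T h)) := by
  refine ⟨{ toFun := fun φ => T.subtype ∘ₗ φ
            map_add' := fun x y => by ext z; simp
            map_smul' := fun n x => by ext z; simp },
    { toFun := fun φ => T.mkQ ∘ₗ φ
      map_add' := fun x y => by ext z; simp
      map_smul' := fun n x => by ext z; simp }, ?_, ?_, ?_, ?_, ?_⟩
  · intro g φ
    ext z
    rfl
  · intro g φ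
    ext z
    rfl
  · intro φ ψ hφ
    ext z
    exact congrArg (fun f : M →ₗ[ℤ] S => f z) hφ
  · intro φ
    obtain ⟨ψ, hψ⟩ := Module.projective_lifting_property T.mkQ φ T.mkQ_surjective
    exact ⟨ψ, hψ⟩
  · intro φ
    constructor
    · intro hφ
      have h1 : ∀ z, φ z ∈ T := by
        intro z
        have := congrArg (fun f : M →ₗ[ℤ] (S ⧸ T) => f z) hφ
        exact (Submodule.Quotient.mk_eq_zero T).1 this
      exact ⟨φ.codRestrict T h1, by ext z; rfl⟩
    · rintro ⟨ψ, rfl⟩
      ext z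
      exact (Submodule.Quotient.mk_eq_zero T).2 (ψ z).2

theorem caseA (hrep : AllRep) (hfin : AllFin) (hel : S_EL) (hP : FPr (triv G)) (S : Type)
    [AddCommGroup S] (σ : Representation ℤ G S) (hσ : Small σ) (l : ℕ) (hl : l.Prime)
    (hls : ∀ s : S, l • s = 0) (N : ℕ) : 0 < N → ∀ (M L : Type) [AddCommGroup M] [AddCommGroup L]
    (μ : Representation ℤ G M) (ν : Representation ℤ G L) (j : M →ₗ[ℤ] L),
    Module.Free ℤ M → Module.Free ℤ L → Small μ → Small ν → Eqv μ ν j → Function.Injective j →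
    (∀ x : L, ∃ y : M, j y = N • x) →
    SameR (Representation.linHom μ σ) (Representation.linHom ν σ) := by
  induction N using Nat.strong_induction_on with
  | _ N ih =>
  intro hN M L _ _ μ ν j hM hL hμ hν hj hinj hx
  have RP := hrep G
  have FN := hfin G
  rcases Nat.lt_or_ge 1 N with h1 | h1
  · obtain ⟨p, hp, hpN⟩ := Nat.exists_prime_and_dvd (show N ≠ 1 by omega)
    obtain ⟨N', rfl⟩ := hpN
    set T : Submodule ℤ L :=
      { carrier := {x | ∃ y, j y = p • x}
        zero_mem' := ⟨0, by simp⟩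
        add_mem' := by
          rintro a b ⟨y, hy⟩ ⟨z, hz⟩
          exact ⟨y + z, by rw [map_add, hy, hz, smul_add]⟩
        smul_mem' := by
          rintro c x ⟨y, hy⟩
          exact ⟨c • y, by rw [map_smul, hy, smul_comm]⟩ } with hT
    have hTmem : ∀ x, x ∈ T ↔ ∃ y, j y = p • x := fun x => Iff.rfl
    have hinv : ∀ g, ∀ x ∈ T, ν g x ∈ T := by
      rintro g x ⟨y, hy⟩
      refine ⟨μ g y, ?_⟩
      rw [hj, hy, map_nsmul]
    have hTfree : Module.Free ℤ T := by
      have := hν.1
      have h5 : Module.Finite ℤ T := inferInstance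
      have h6 : Module.IsTorsionFree ℤ L := inferInstance
      have h7 : Module.IsTorsionFree ℤ T := inferInstance
      exact Module.free_of_finite_type_torsion_free'
    have hTs : Small (subR ν T hinv) := small_sub ν T hinv hν
    have e1 : SameR (Representation.linHom μ σ) (Representation.linHom (subR ν T hinv) σ) := by
      refine hel hrep hfin G hP M T S μ (subR ν T hinv) σ
        (j.codRestrict T (fun y => ⟨p • y, by rw [map_nsmul]⟩)) p l hM hTfree hμ hTs hσ hp hl hls
        ?_ ?_ ?_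
      · intro g y
        apply Subtype.ext
        exact hj g y
      · intro y z hyz
        apply hinj
        exact congrArg Subtype.val hyz
      · rintro ⟨x, y, hy⟩
        exact ⟨y, Subtype.ext hy⟩
    have hN' : 0 < N' := Nat.pos_of_ne_zero (by rintro rfl; simp at hN)
    have e2 : SameR (Representation.linHom (subR ν T hinv) σ) (Representation.linHom ν σ) := by
      refine ih N' ?_ hN' T L (subR ν T hinv) ν T.subtype hTfree hL hTs hν ?_ ?_ ?_
      · exact lt_mul_left hN' hp.one_lt
      · intro g x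
        rfl
      · exact Subtype.val_injective
      · intro x
        obtain ⟨y, hy⟩ := hx x
        exact ⟨⟨N' • x, y, by rw [hy, mul_smul]⟩, rfl⟩
    exact RP.trans _ _ _ _ _ _ e1 e2
  · have hN1 : N = 1 := by omega
    subst hN1
    have hsur : Function.Surjective j := by
      intro x
      obtain ⟨y, hy⟩ := hx x
      exact ⟨y, by rw [hy, one_smul]⟩
    let e := LinearEquiv.ofBijective j ⟨hinj, hsur⟩
    have hej : ∀ y, e y = j y := fun y => rfl
    refine RP.iso _ _ _ _ ?_ (FN.P hP _ _ (small_hom μ σ hM hμ hσ))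
    refine ⟨e.arrowCongr (LinearEquiv.refl ℤ S), ?_⟩
    intro g φ
    ext z
    change σ g (φ (μ g⁻¹ (e.symm z))) = σ g (φ (e.symm (ν g⁻¹ z)))
    congr 2
    rw [LinearEquiv.eq_symm_apply, hej, hj, ← hej, LinearEquiv.apply_symm_apply]

theorem card_lt {S : Type} [AddCommGroup S] [Finite S] (T : Submodule ℤ S) (h : T ≠ ⊤) :
    Nat.card T < Nat.card S := by
  have h1 : (T : Set S) ⊂ Set.univ := by
    refine ⟨Set.subset_univ _, fun h2 => h ?_⟩
    rw [eq_top_iff]
    intro x _
    exact h2 (Set.mem_univ x)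
  have h3 := Set.ncard_lt_ncard h1 (Set.toFinite _)
  rwa [Set.ncard_univ] at h3

theorem t_CH : S_CH := by
  intro hrep hfin hel G _ hP M L S _ _ _ μ ν σ j N hM hL hμ hν hσ hS hj hinj hN hx
  have RP := hrep G
  have FN := hfin G
  obtain ⟨c, hc⟩ : ∃ c, Nat.card S = c := ⟨_, rfl⟩
  induction c using Nat.strong_induction_on generalizing S with
  | _ c ih =>
  rcases subsingleton_or_nontrivial S with h0 | h0
  · refine RP.iso _ _ _ _ ⟨0, ?_⟩ (FN.P hP _ _ (small_hom μ σ hM hμ hσ))
    intro g φ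
    ext z
    exact Subsingleton.elim _ _
  · have h1 : Nat.card S ≠ 1 := by
      have := Finite.one_lt_card (α := S)
      omega
    obtain ⟨l, hl, hlS⟩ := Nat.exists_prime_and_dvd h1
    have := Fintype.ofFinite S
    have := Fact.mk hl
    rw [Nat.card_eq_fintype_card] at hlS
    obtain ⟨s0, hs0⟩ := exists_prime_addOrderOf_dvd_card l hlS
    set m : S →ₗ[ℤ] S := (l : ℤ) • LinearMap.id with hm
    have hmx : ∀ x, m x = l • x := fun x => by simp [hm]
    set T : Submodule ℤ S := LinearMap.range m with hT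
    have hTtop : T ≠ ⊤ := by
      intro htop
      have hsurj : Function.Surjective m := LinearMap.range_eq_top.1 htop
      have hin : Function.Injective m := Finite.injective_iff_surjective.2 hsurj
      have h2 : m s0 = m 0 := by
        rw [hmx, map_zero, ← hs0]
        exact addOrderOf_nsmul_eq_zero s0
      have h3 := hin h2
      rw [h3, addOrderOf_zero] at hs0
      exact hl.one_lt.ne hs0
    have hinv : ∀ g, ∀ x ∈ T, σ g x ∈ T := by
      rintro g x ⟨y, rfl⟩
      exact ⟨σ g y, by rw [hmx, hmx, map_nsmul]⟩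
    have hq : ∀ s : S ⧸ T, l • s = 0 := by
      intro s
      obtain ⟨x, rfl⟩ := T.mkQ_surjective s
      rw [← map_nsmul]
      exact (Submodule.Quotient.mk_eq_zero T).2 ⟨x, hmx x⟩
    have e1 : SameR (Representation.linHom μ (subR σ T hinv))
        (Representation.linHom ν (subR σ T hinv)) :=
      ih (Nat.card T) (hc ▸ card_lt T hTtop) T (subR σ T hinv) (small_sub σ T hinv hσ)
        inferInstance rfl
    have e2 : SameR (Representation.linHom μ (quoR σ T hinv))
        (Representation.linHom ν (quoR σ T hinv)) :=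
      caseA hrep hfin hel hP (S ⧸ T) (quoR σ T hinv) (small_quo σ T hinv hσ) l hl hq N hN
        M L μ ν j hM hL hμ hν hj hinj hx
    exact RP.two _ _ _ _ _ _ _ _ _ _ _ _ (ses_hom μ σ hM T hinv) (ses_hom ν σ hL T hinv) e1 e2

end

end Pool.Agent.K1H37.HE
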